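import Pool.Agent.Helper15.DAF.Stmts

/-!
# Rows DERLOC and ORE of the project DAF
-/

namespace Pool.Agent.Helper15.DAF

namespace S1

variable {K : Type} [Field K] [Algebra ℂ K]

theorem der_one {d : Module.End ℂ K} (hd : ∀ a b : K, d (a * b) = a * d b + b * d a) :
    d 1 = 0 := by
  have h := hd 1 1
  simp only [one_mul, mul_one] at h
  have h2 : d 1 + d 1 = d 1 + 0 := by rw [add_zero]; exact h.symm
  exact add_left_cancel h2

theorem der_algebraMap {d : Module.End ℂ K} (hd : ∀ a b : K, d (a * b) = a * d b + b * d a)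
    (c : ℂ) : d (algebraMap ℂ K c) = 0 := by
  rw [Algebra.algebraMap_eq_smul_one, map_smul, der_one hd, smul_zero]

theorem mulOp_apply (a x : K) : mulOp a x = a * x := rfl

theorem mulOp_mem_Dop {B : Subalgebra ℂ K} {b : K} (hb : b ∈ B) : mulOp b ∈ Dop B :=
  Algebra.subset_adjoin (Or.inl ⟨b, hb, rfl⟩)

theorem der_mem_Dop {B : Subalgebra ℂ K} {d : Module.End ℂ K} (hd : d ∈ Der B) : d ∈ Dop B :=
  Algebra.subset_adjoin (Or.inr hd)

end S1

theorem st_DERLOC : ST_DERLOC := by
  intro K _ _ B V f hL d hd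
  refine ⟨hd.1, ?_⟩
  intro v hv
  obtain ⟨n, hn⟩ := hL.surj v hv
  have h1 : d (f ^ n * v) ∈ V := hL.le (hd.2 _ hn)
  have h2 : d (f ^ n) ∈ V := hL.le (hd.2 _ (B.pow_mem hL.mem n))
  have h3 : d (f ^ n * v) = f ^ n * d v + v * d (f ^ n) := hd.1 _ _
  have h4 : d v = (f⁻¹) ^ n * (d (f ^ n * v) - v * d (f ^ n)) := by
    rw [h3, add_sub_cancel_right, ← mul_assoc, ← mul_pow, inv_mul_cancel₀ hL.ne, one_pow, one_mul]
  rw [h4]
  exact V.mul_mem (V.pow_mem hL.inv n) (V.sub_mem h1 (V.mul_mem hv h2))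

namespace S1

variable {K : Type} [Field K] [Algebra ℂ K]

/-- A multiple of a derivation of the localisation by a power of `f` is a derivation of `B`. -/
theorem ore_der {B V : Subalgebra ℂ K} {f : K} (hL : IsLoc B V f) (hB : B.FG)
    {d : Module.End ℂ K} (hd : d ∈ Der V) : ∃ M : ℕ, mulOp (f ^ M) * d ∈ Der B := by
  obtain ⟨S, hS⟩ := hB
  have hSB : ∀ x ∈ S, x ∈ B := fun x hx => by
    rw [← hS]; exact Algebra.subset_adjoin hx
  have h1 : ∀ x ∈ S, ∃ n : ℕ, f ^ n * d x ∈ B := fun x hx =>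
    hL.surj _ (hd.2 _ (hL.le (hSB x hx)))
  choose! N hN using h1
  refine ⟨S.sup N, ?_, ?_⟩
  · intro a b
    simp only [Module.End.mul_apply, mulOp_apply, hd.1 a b]
    ring
  · intro b hb
    rw [← hS] at hb
    induction hb using Algebra.adjoin_induction with
    | mem x hx =>
      have hx' : x ∈ S := hx
      have hle : N x ≤ S.sup N := Finset.le_sup hx'
      simp only [Module.End.mul_apply, mulOp_apply]
      obtain ⟨k, hk⟩ := Nat.exists_eq_add_of_le hle
      rw [hk, add_comm, pow_add, mul_assoc]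
      exact B.mul_mem (B.pow_mem hL.mem k) (hN x hx')
    | algebraMap c =>
      simp only [Module.End.mul_apply, mulOp_apply]
      rw [der_algebraMap hd.1, mul_zero]
      exact B.zero_mem
    | add x y _ _ hx hy => rw [map_add]; exact B.add_mem hx hy
    | mul x y hx' hy' hx hy =>
      rw [hS] at hx' hy'
      have e : (mulOp (f ^ S.sup N) * d) (x * y)
          = x * (mulOp (f ^ S.sup N) * d) y + y * (mulOp (f ^ S.sup N) * d) x := by
        simp only [Module.End.mul_apply, mulOp_apply, hd.1 x y]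
        ring
      rw [e]
      exact B.add_mem (B.mul_mem hx' hy) (B.mul_mem hy' hx)

theorem mulOp_mul (a b : K) : (mulOp (a * b) : Module.End ℂ K) = mulOp a * mulOp b := by
  ext x
  simp only [Module.End.mul_apply, mulOp_apply, mul_assoc]

theorem der_pow {d : Module.End ℂ K} (hd : ∀ a b : K, d (a * b) = a * d b + b * d a) (f : K)
    (N : ℕ) : f * d (f ^ N) = (N : K) * (f ^ N * d f) := by
  induction N with
  | zero => simp [der_one hd]
  | succ N ih =>
    rw [pow_succ, hd, mul_add]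
    have : f * (f * d (f ^ N)) = f * ((N : K) * (f ^ N * d f)) := by rw [ih]
    rw [this]
    push_cast
    ring

theorem ore_core {B V : Subalgebra ℂ K} {f : K} (hL : IsLoc B V f) (hB : B.FG)
    {P : Module.End ℂ K} (hP : P ∈ Dop V) : ∀ R : Module.End ℂ K,
    (∃ N : ℕ, mulOp (f ^ N) * R ∈ Dop B) → ∃ N : ℕ, mulOp (f ^ N) * (P * R) ∈ Dop B := by
  unfold Dop at hP
  have hf : ∀ n : ℕ, mulOp (f ^ n) ∈ Dop B := fun n => mulOp_mem_Dop (B.pow_mem hL.mem n)
  induction hP using Algebra.adjoin_induction with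
  | mem x hx =>
    rintro R ⟨N, hN⟩
    rcases hx with ⟨v, hv, rfl⟩ | hd
    · obtain ⟨n, hn⟩ := hL.surj v hv
      refine ⟨n + N, ?_⟩
      have e : mulOp (f ^ (n + N)) * (mulOp v * R) = mulOp (f ^ n * v) * (mulOp (f ^ N) * R) := by
        ext z
        simp only [Module.End.mul_apply, mulOp_apply, pow_add]
        ring
      rw [e]
      exact (Dop B).mul_mem (mulOp_mem_Dop hn) hN
    · obtain ⟨M, hM⟩ := ore_der hL hB hd
      refine ⟨M + N + 1, ?_⟩
      have e : mulOp (f ^ (M + N + 1)) * (x * R)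
          = mulOp f * ((mulOp (f ^ M) * x) * (mulOp (f ^ N) * R))
            - (N : ℂ) • (mulOp ((mulOp (f ^ M) * x) f) * (mulOp (f ^ N) * R)) := by
        ext z
        simp only [Module.End.mul_apply, mulOp_apply, LinearMap.sub_apply, LinearMap.smul_apply,
          hd.1 (f ^ N) (R z)]
        have h5 := der_pow hd.1 f N
        have h6 : ((N : ℂ) • (f ^ M * x f * (f ^ N * R z)) : K)
            = (N : K) * (f ^ M * x f * (f ^ N * R z)) := by
          rw [Algebra.smul_def, map_natCast]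
        rw [h6]
        have h7 : f * (f ^ M * (f ^ N * x (R z) + R z * x (f ^ N)))
            = f ^ (M + N + 1) * x (R z) + f ^ M * R z * (f * x (f ^ N)) := by ring
        rw [h7, h5]
        ring
      rw [e]
      exact (Dop B).sub_mem ((Dop B).mul_mem (mulOp_mem_Dop hL.mem)
        ((Dop B).mul_mem (der_mem_Dop hM) hN))
        ((Dop B).smul_mem ((Dop B).mul_mem (mulOp_mem_Dop (hM.2 _ hL.mem)) hN) _)
  | algebraMap c =>
    rintro R ⟨N, hN⟩
    refine ⟨N, ?_⟩
    rw [← Algebra.smul_def, mul_smul_comm]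
    exact (Dop B).smul_mem hN c
  | add x y _ _ hx hy =>
    intro R hR
    obtain ⟨N1, h1⟩ := hx R hR
    obtain ⟨N2, h2⟩ := hy R hR
    refine ⟨N1 + N2, ?_⟩
    have e : mulOp (f ^ (N1 + N2)) * ((x + y) * R)
        = mulOp (f ^ N2) * (mulOp (f ^ N1) * (x * R))
          + mulOp (f ^ N1) * (mulOp (f ^ N2) * (y * R)) := by
      ext z
      simp only [Module.End.mul_apply, mulOp_apply, LinearMap.add_apply, pow_add]
      ring
    rw [e]
    exact (Dop B).add_mem ((Dop B).mul_mem (hf _) h1) ((Dop B).mul_mem (hf _) h2)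
  | mul x y _ _ hx hy =>
    intro R hR
    rw [mul_assoc]
    exact hx _ (hy R hR)

end S1

open S1 in
theorem st_ORE : ST_ORE := by
  intro K _ _ B V f hL hB P hP
  obtain ⟨N, hN⟩ := ore_core hL hB hP 1
    ⟨0, by rw [mul_one, pow_zero]; exact mulOp_mem_Dop B.one_mem⟩
  exact ⟨N, by rwa [mul_one] at hN⟩

end Pool.Agent.Helper15.DAF
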