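import Pool.Agent.Helper15.DAF.Stmts2
import Pool.Agent.Helper1.DAF.ORE

/-!
# Rows DERORE and SPREAD of the project DAF
-/

open AlgebraicGeometry CategoryTheory TopologicalSpace Opposite

namespace Pool.Agent.Helper15.DAF

theorem st_DERORE : ST_DERORE := by
  intro K _ _ B V f hL hB d hd
  exact S1.ore_der hL hB hd

namespace S1

variable {X : Scheme.{0}} [IsIntegral X] (s : X ⟶ Spec (CommRingCat.of ℂ))

theorem ev_inj (V : Aff X) : Function.Injective (ev s V) :=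
  X.germToFunctionField_injective V.U

theorem mem_van_iff (x : X) (V : Aff X) (f : Γ(X, V.U)) :
    ev s V f ∈ van s x V ↔ x ∉ X.basicOpen f := by
  constructor
  · rintro ⟨g, hg, he⟩
    rw [← ev_inj s V he]
    exact hg
  · intro h
    exact ⟨f, h, rfl⟩

theorem ev_res' (V W : Aff X) (h : W.U ≤ V.U) (f : Γ(X, V.U)) :
    ev s W (X.presheaf.map (homOfLE h).op f) = ev s V f := by
  change (X.germToFunctionField W.U).hom _ = (X.germToFunctionField V.U).hom _
  exact X.presheaf.germ_res_apply (homOfLE h) (genericPoint X) _ _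

theorem van_res (x : X) (V W : Aff X) (h : W.U ≤ V.U) (hx : x ∈ W.U) (f : Γ(X, V.U)) :
    ev s V f ∈ van s x W ↔ ev s V f ∈ van s x V := by
  rw [mem_van_iff s x V f, ← ev_res' s V W h f, mem_van_iff, Scheme.basicOpen_res]
  constructor
  · intro h1 h2
    exact h1 ⟨hx, h2⟩
  · intro h1 h2
    exact h1 h2.2

theorem van_mul (x : X) (V : Aff X) (f g : Γ(X, V.U)) (hf : ev s V f ∉ van s x V)
    (hg : ev s V g ∉ van s x V) : ev s V f * ev s V g ∉ van s x V := by
  rw [← map_mul, mem_van_iff, not_not, Scheme.basicOpen_mul]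
  rw [mem_van_iff, not_not] at hf hg
  exact ⟨hf, hg⟩

theorem mulOp_GenT (V : Aff X) {b : FF s} (hb : b ∈ O s V) {e : Module.End ℂ (FF s)}
    (he : e ∈ GenT s V) : mulOp b * e ∈ GenT s V := by
  unfold GenT at he ⊢
  induction he using Submodule.span_induction with
  | mem x hx =>
    obtain ⟨a, ha, v, hv, rfl⟩ := hx
    refine Submodule.subset_span ⟨b * a, (O s V).mul_mem hb ha, v, hv, ?_⟩
    rw [mulOp_mul, mul_assoc]
  | zero => rw [mul_zero]; exact Submodule.zero_mem _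
  | add x y _ _ hx hy => rw [mul_add]; exact Submodule.add_mem _ hx hy
  | smul c x _ hx => rw [mul_smul_comm]; exact Submodule.smul_mem _ c hx

theorem GenT_loc (V W : Aff X) (f : FF s) (hL : IsLoc (O s V) (O s W) f)
    {e : Module.End ℂ (FF s)} (he : e ∈ GenT s W) :
    ∃ M : ℕ, mulOp (f ^ M) * e ∈ GenT s V := by
  have he' := he
  unfold GenT at he
  have hf : ∀ n : ℕ, f ^ n ∈ O s V := fun n => (O s V).pow_mem hL.mem n
  have comb : ∀ (M1 M2 : ℕ) (z : Module.End ℂ (FF s)), mulOp (f ^ M1) * z ∈ GenT s V →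
      mulOp (f ^ (M1 + M2)) * z ∈ GenT s V := by
    intro M1 M2 z hz
    rw [add_comm, pow_add, mulOp_mul, mul_assoc]
    exact mulOp_GenT s V (hf M2) hz
  clear he'
  induction he using Submodule.span_induction with
  | mem x hx =>
    obtain ⟨a, ha, v, hv, rfl⟩ := hx
    obtain ⟨M, hM⟩ := hL.surj a ha
    refine ⟨M, Submodule.subset_span ⟨f ^ M * a, hM, v, hv, ?_⟩⟩
    rw [mulOp_mul, mul_assoc]
  | zero => exact ⟨0, by rw [mul_zero]; exact Submodule.zero_mem _⟩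
  | add x y _ _ hx hy =>
    obtain ⟨M1, h1⟩ := hx
    obtain ⟨M2, h2⟩ := hy
    refine ⟨M1 + M2, ?_⟩
    rw [mul_add]
    refine Submodule.add_mem _ (comb M1 M2 x h1) ?_
    rw [add_comm]
    exact comb M2 M1 y h2
  | smul c x _ hx =>
    obtain ⟨M, h1⟩ := hx
    exact ⟨M, by rw [mul_smul_comm]; exact Submodule.smul_mem _ c h1⟩

end S1

open S1 in
/-- (from SLOC, SMONO, DMONO, SFG) -/
theorem st_SPREAD (h1 : ST_SLOC) (h2 : ST_SMONO) (h3 : ST_DMONO) (h4 : ST_SFG) : ST_SPREAD := by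
  intro X _ s _ V V1 x hxV hxV1 n t y _ h hh hhv hgen d hd
  obtain ⟨f, f1, hff, hxf⟩ := AlgebraicGeometry.exists_basicOpen_le_affine_inter V.aff V1.aff x ⟨hxV, hxV1⟩
  let Z : Aff X := ⟨X.basicOpen f, V.aff.basicOpen f, ⟨⟨x, hxf⟩⟩⟩
  have hZV : Z.U ≤ V.U := X.basicOpen_le f
  have hZ1 : Z.U = X.basicOpen f1 := hff
  have hZV1 : Z.U ≤ V1.U := hZ1.le.trans (X.basicOpen_le f1)
  have L : IsLoc (O s V) (O s Z) (ev s V f) := h1 X s V Z f rfl
  have L1 : IsLoc (O s V1) (O s Z) (ev s V1 f1) := h1 X s V1 Z f1 hZ1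
  have hdZ : d ∈ Der (O s Z) := (h3 X s V Z hZV).1 hd
  obtain ⟨N, hN⟩ := st_DERORE _ _ _ _ L1 (h4 X s V1) d hdZ
  have g1 : mulOp h * (mulOp (ev s V1 f1 ^ N) * d) ∈ GenT s V1 := hgen _ hN
  have hsub : GenT s V1 ≤ GenT s Z := by
    refine Submodule.span_mono ?_
    rintro e ⟨a, ha, v, hv, rfl⟩
    exact ⟨a, h2 X s V1 Z hZV1 ha, v, hv, rfl⟩
  have g2 : mulOp h * (mulOp (ev s V1 f1 ^ N) * d) ∈ GenT s Z := hsub g1
  obtain ⟨M1, hM1⟩ := GenT_loc s V Z _ L g2
  have hh' : ∃ g, ev s V1 g = h := hh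
  obtain ⟨gh, hgh⟩ := hh'
  have hbZ : h * ev s V1 f1 ^ N ∈ O s Z :=
    h2 X s V1 Z hZV1 ((O s V1).mul_mem hh ((O s V1).pow_mem L1.mem N))
  obtain ⟨M2, hM2⟩ := L.surj _ hbZ
  refine ⟨ev s V f ^ (M1 + M2) * (h * ev s V1 f1 ^ N), ?_, ?_, ?_⟩
  · rw [pow_add, mul_assoc]
    exact (O s V).mul_mem ((O s V).pow_mem L.mem M1) hM2
  · -- not in the ideal of the point
    have hb : ev s V f ^ (M1 + M2) * (h * ev s V1 f1 ^ N) ∈ O s V := by
      rw [pow_add, mul_assoc]
      exact (O s V).mul_mem ((O s V).pow_mem L.mem M1) hM2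
    obtain ⟨gb, hgb⟩ : ∃ g, ev s V g = ev s V f ^ (M1 + M2) * (h * ev s V1 f1 ^ N) := hb
    rw [← hgb, ← van_res s x V Z hZV hxf gb, hgb]
    -- everything in Z
    have key : ∀ k : ℕ, ∀ g : Γ(X, Z.U), ev s Z g ∉ van s x Z → ev s Z (g ^ k) ∉ van s x Z := by
      intro k g hg
      rw [mem_van_iff, not_not] at hg ⊢
      rcases Nat.eq_zero_or_pos k with hk | hk
      · subst hk
        rw [pow_zero, Scheme.basicOpen_of_isUnit _ isUnit_one]
        exact hxf
      · rw [Scheme.basicOpen_pow _ _ hk]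
        exact hg
    have a1 : ev s Z (X.presheaf.map (homOfLE hZV).op f) ∉ van s x Z := by
      rw [ev_res' s V Z hZV f, van_res s x V Z hZV hxf f, mem_van_iff, not_not]
      exact hxf
    have a2 : ev s Z (X.presheaf.map (homOfLE hZV1).op f1) ∉ van s x Z := by
      rw [ev_res' s V1 Z hZV1 f1, van_res s x V1 Z hZV1 hxf f1, mem_van_iff, not_not]
      exact hZ1 ▸ hxf
    have a3 : ev s Z (X.presheaf.map (homOfLE hZV1).op gh) ∉ van s x Z := by
      rw [ev_res' s V1 Z hZV1 gh, van_res s x V1 Z hZV1 hxf gh, hgh]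
      exact hhv
    have b1 := van_mul s x Z _ _ a3 (key N _ a2)
    rw [← map_mul] at b1
    have b2 := van_mul s x Z _ _ (key (M1 + M2) _ a1) b1
    have e1 : ev s Z (X.presheaf.map (homOfLE hZV).op f ^ (M1 + M2))
        = ev s V f ^ (M1 + M2) := by rw [map_pow, ev_res' s V Z hZV f]
    have e2 : ev s Z (X.presheaf.map (homOfLE hZV1).op gh *
        X.presheaf.map (homOfLE hZV1).op f1 ^ N) = h * ev s V1 f1 ^ N := by
      rw [map_mul, map_pow, ev_res' s V1 Z hZV1 gh, ev_res' s V1 Z hZV1 f1, hgh]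
    rw [e1, e2] at b2
    exact b2
  · have e : mulOp (ev s V f ^ (M1 + M2) * (h * ev s V1 f1 ^ N)) * d
        = mulOp (ev s V f ^ M2) * (mulOp (ev s V f ^ M1)
          * (mulOp h * (mulOp (ev s V1 f1 ^ N) * d))) := by
      rw [mulOp_mul, mulOp_mul, add_comm, pow_add, mulOp_mul]
      simp only [mul_assoc]
    rw [e]
    exact mulOp_GenT s V ((O s V).pow_mem L.mem M2) hM1

end Pool.Agent.Helper15.DAF
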